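import Pool.Agent.Helper76.PC.Stmts

/-!
MP_c33217_co: module CEX. Existence of the contraction.
-/

namespace Pool.Agent.Helper76.PC

open Finset

/-- adjacency after the contraction -/
def cexR (G : Gr) (v a b x y : ℕ) : Prop :=
  x ≠ v ∧ x ≠ b ∧ y ≠ v ∧ y ≠ b ∧ (y ∈ G.N x ∨ (x = a ∧ y ∈ G.N b) ∨ (y = a ∧ b ∈ G.N x))

theorem cexR_symm {G : Gr} {v a b x y : ℕ} (h : cexR G v a b x y) : cexR G v a b y x := by
  obtain ⟨h1, h2, h3, h4, h5⟩ := h
  refine ⟨h3, h4, h1, h2, ?_⟩
  rcases h5 with h5 | ⟨h5, h6⟩ | ⟨h5, h6⟩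
  · exact Or.inl (G.symm x y h5)
  · exact Or.inr (Or.inr ⟨h5, G.symm b y h6⟩)
  · exact Or.inr (Or.inl ⟨h5, G.symm x b h6⟩)

theorem cex_side {G : Gr} {v a b : ℕ} (hv : G.N v = {a, b}) : side a = side b := by
  have h1 : side v ≠ side a := G.bip v a (by rw [hv]; simp)
  have h2 : side v ≠ side b := G.bip v b (by rw [hv]; simp)
  revert h1 h2
  cases side a <;> cases side b <;> cases side v <;> simp

theorem cex_nadj {G : Gr} {v a b : ℕ} (hv : G.N v = {a, b}) : b ∉ G.N a := fun h =>
  G.bip a b h (cex_side hv)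

theorem cex_mem {G : Gr} {v a b : ℕ} (hv : G.N v = {a, b}) (hab : a ≠ b) (x y : ℕ) :
    y ∈ contrN G v a b x ↔ cexR G v a b x y := by
  have hbb : b ∉ G.N b := fun h => G.bip b b h rfl
  have hba := cex_nadj hv
  have hva : v ∈ G.N a := G.symm v a (by rw [hv]; simp)
  have hav : a ≠ v := by
    rintro rfl
    exact G.bip a a hva rfl
  unfold contrN cexR
  by_cases h1 : x = v ∨ x = b
  · rw [if_pos h1]
    constructor
    · intro h
      exact absurd h (Finset.notMem_empty _)
    · rintro ⟨h2, h3, _⟩
      rcases h1 with h1 | h1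
      · exact absurd h1 h2
      · exact absurd h1 h3
  · rw [if_neg h1]
    push Not at h1
    by_cases h2 : x = a
    · rw [if_pos h2]
      subst h2
      simp only [mem_erase, mem_union]
      constructor
      · rintro ⟨h3, h4⟩
        refine ⟨h1.1, h1.2, h3, ?_, ?_⟩
        · rintro rfl
          rcases h4 with h4 | h4
          · exact hba h4
          · exact hbb h4
        · rcases h4 with h4 | h4
          · exact Or.inl h4
          · exact Or.inr (Or.inl ⟨trivial, h4⟩)
      · rintro ⟨_, _, h3, _, h5⟩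
        refine ⟨h3, ?_⟩
        rcases h5 with h5 | h5 | h5
        · exact Or.inl h5
        · exact Or.inr h5.2
        · exact absurd h5.2 hba
    · rw [if_neg h2]
      have hvx : v ∉ G.N x := by
        intro h
        have h3 := G.symm x v h
        rw [hv] at h3
        simp only [mem_insert, mem_singleton] at h3
        rcases h3 with h3 | h3
        · exact h2 h3
        · exact h1.2 h3
      by_cases h3 : b ∈ G.N x
      · rw [if_pos h3]
        simp only [mem_insert, mem_erase]
        constructor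
        · rintro (h4 | ⟨h4, h5⟩)
          · exact ⟨h1.1, h1.2, by rw [h4]; exact hav, by rw [h4]; exact hab,
              Or.inr (Or.inr ⟨h4, h3⟩)⟩
          · refine ⟨h1.1, h1.2, ?_, h4, Or.inl h5⟩
            rintro rfl
            exact hvx h5
        · rintro ⟨_, _, _, h4, h5⟩
          rcases h5 with h5 | h5 | h5
          · exact Or.inr ⟨h4, h5⟩
          · exact absurd h5.1 h2
          · exact Or.inl h5.1
      · rw [if_neg h3]
        constructor
        · intro h4
          refine ⟨h1.1, h1.2, ?_, ?_, Or.inl h4⟩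
          · rintro rfl
            exact hvx h4
          · rintro rfl
            exact h3 h4
        · rintro ⟨_, _, _, h4, h5⟩
          rcases h5 with h5 | h5 | h5
          · exact h5
          · exact absurd h5.1 h2
          · exact absurd h5.2 h3

/-- no 4-cycle through a -/
theorem cex_key {G : Gr} {v a b : ℕ} (hv : G.N v = {a, b}) (hex : NoHex G v a b)
    (z y y' : ℕ) (hz : z ≠ a) (hy : y ≠ y') (h1 : cexR G v a b a y) (h2 : cexR G v a b z y)
    (h3 : cexR G v a b a y') (h4 : cexR G v a b z y') : False := by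
  have hba := cex_nadj hv
  have hnb : ∀ w, cexR G v a b a w → w ∈ G.N a ∨ w ∈ G.N b := by
    rintro w ⟨_, _, _, _, h | h | h⟩
    · exact Or.inl h
    · exact Or.inr h.2
    · exact absurd h.2 hba
  have hside : side a = side b := cex_side hv
  have hna : ∀ w, cexR G v a b a w → w ≠ a := by
    intro w hw
    rcases hnb w hw with h | h
    · rintro rfl
      exact G.bip w w h rfl
    · rintro rfl
      exact G.bip b w h hside.symm
  have hzN : ∀ w, cexR G v a b a w → cexR G v a b z w → w ∈ G.N z := by
    rintro w hw ⟨_, _, _, _, h | h | h⟩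
    · exact h
    · exact absurd h.1 hz
    · exact absurd h.1 (hna w hw)
  have hyz := hzN y h1 h2
  have hyz' := hzN y' h3 h4
  have hzb : z ≠ b := h2.2.1
  rcases hnb y h1 with hy1 | hy1
  · rcases hnb y' h3 with hy2 | hy2
    · exact hy (G.c4 a z (fun h => hz h.symm) y y' hy1 hyz hy2 hyz')
    · exact hex y z y' hy1 h1.2.2.1 hy2 h3.2.2.1 hy (G.symm z y hyz) (G.symm z y' hyz') hz hzb
  · rcases hnb y' h3 with hy2 | hy2
    · exact hex y' z y hy2 h3.2.2.1 hy1 h1.2.2.1 (fun h => hy h.symm) (G.symm z y' hyz')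
        (G.symm z y hyz) hz hzb
    · exact hy (G.c4 b z (fun h => hzb h.symm) y y' hy1 hyz hy2 hyz')

theorem st_CEX : ST_CEX := by
  intro G v a b hv hab hex
  have hm := cex_mem hv hab
  have hside : side a = side b := cex_side hv
  refine ⟨{
    V := (G.V.erase v).erase b
    N := contrN G v a b
    symm := ?_
    mem := ?_
    bip := ?_
    c4 := ?_ }, rfl, fun x => rfl⟩
  · intro x y h
    rw [hm] at h ⊢
    exact cexR_symm h
  · intro x y h
    rw [hm] at h
    obtain ⟨h1, h2, h3, h4, h5⟩ := h
    rw [mem_erase, mem_erase]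
    refine ⟨h2, h1, ?_⟩
    rcases h5 with h5 | h5 | h5
    · exact G.mem x y h5
    · rw [h5.1]
      exact G.mem a v (G.symm v a (by rw [hv]; simp))
    · exact G.mem x b h5.2
  · intro x y h
    rw [hm] at h
    obtain ⟨_, _, _, _, h5⟩ := h
    rcases h5 with h5 | h5 | h5
    · exact G.bip x y h5
    · rw [h5.1, hside]
      exact G.bip b y h5.2
    · rw [h5.1, hside]
      exact G.bip x b h5.2
  · intro x z hxz y y' h1 h2 h3 h4
    rw [hm] at h1 h2 h3 h4
    by_contra hy
    by_cases hx : x = a
    · subst hx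
      exact cex_key hv hex z y y' (fun h => hxz h.symm) hy h1 h2 h3 h4
    by_cases hz : z = a
    · subst hz
      exact cex_key hv hex x y y' hxz hy h2 h1 h4 h3
    by_cases hya : y = a
    · subst hya
      exact cex_key hv hex y' x z (fun h => hy h.symm) hxz (cexR_symm h1) (cexR_symm h3)
        (cexR_symm h2) (cexR_symm h4)
    by_cases hya' : y' = a
    · subst hya'
      exact cex_key hv hex y x z hy hxz (cexR_symm h3) (cexR_symm h1)
        (cexR_symm h4) (cexR_symm h2)
    have hold : ∀ p q, p ≠ a → q ≠ a → cexR G v a b p q → q ∈ G.N p := by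
      rintro p q hp hq ⟨_, _, _, _, h | h | h⟩
      · exact h
      · exact absurd h.1 hp
      · exact absurd h.1 hq
    exact hy (G.c4 x z hxz y y' (hold x y hx hya h1) (hold z y hz hya h2)
      (hold x y' hx hya' h3) (hold z y' hz hya' h4))

end Pool.Agent.Helper76.PC
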